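import Mathlib
import Pool.Agent.RestrictedOrder.Popular

set_option autoImplicit false

/-!
# Structure theorem for iterated popular sumsets, explicit constants

The proof is the one of `Pool.Agent.RestrictedOrder.structure_thm`; only the constants are named.
-/

namespace Pool.Agent.RestrictedExplicit

open Finset
open scoped Pointwise
open Pool.Agent.RestrictedOrder

/-- **Structure theorem with explicit constants.** The parameters `m`, `J` are free as long as
`13 ≤ c m` and `J + 3 < (1 + 1/(32 m))^J c`. -/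
theorem structure_core (c : ℝ) (hc : 0 < c) (m J : ℕ) (hmc : (13:ℝ) ≤ c * m)
    (hJ : (J:ℝ) + 3 < (1 + 1 / (32 * (m:ℝ)))^J * c) (θ : ℝ)
    (hθd : θ = 1 / (32 * (m:ℝ)) * c / (2 * (m:ℝ)^2 * (J + 4))) :
    ∀ N : ℕ, m + 2 ≤ N → ∀ U V0 : Finset ℤ, (∀ x ∈ U, 0 ≤ x ∧ x ≤ N) →
      (∀ x ∈ V0, 0 ≤ x ∧ x ≤ ((2 * N : ℕ) : ℤ)) → c * N ≤ U.card → c * N ≤ V0.card →
      ∀ V : ℕ → Finset ℤ, V 0 = V0 → (∀ j, V (j+1) = popSum U (V j) (θ * N)) →
      ∃ j ≤ J, ∃ q : ℕ, 1 ≤ q ∧ q ≤ m ∧ ∃ w : ℤ, w ≤ ((2 * (J + 2) * N : ℕ) : ℤ) ∧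
        ∀ z : ℤ, w ≤ z → z ≤ w + 4 * N → (q:ℤ) ∣ z - w → ∃ x ∈ V j, ∃ y ∈ V j, x + y = z := by
  classical
  have hm0 : (0:ℝ) < m := by
    rcases Nat.eq_zero_or_pos m with h | h
    · rw [h] at hmc; simp only [Nat.cast_zero, mul_zero] at hmc; linarith
    · exact_mod_cast h
  have hm1 : 1 ≤ m := by
    have : 0 < m := by exact_mod_cast hm0
    exact this
  set x : ℝ := 1 / (32 * m) with hx
  have hx0 : 0 < x := by positivity
  have hθ : θ = x * c / (2 * (m:ℝ)^2 * (J + 4)) := hθd
  have hθ0 : 0 < θ := by rw [hθ]; positivity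
  intro N hN U V0 hU hV0 hUc hV0c V hVz hVs
  have hNm : m ≤ N := by omega
  have hN2 : 2 ≤ N := by omega
  have hNR : (2:ℝ) ≤ N := by exact_mod_cast hN2
  -- ranges
  have hrange : ∀ j, ∀ y ∈ V j, 0 ≤ y ∧ y ≤ (((j + 2) * N : ℕ) : ℤ) := by
    intro j
    induction j with
    | zero =>
      intro y hy
      rw [hVz] at hy
      simpa using hV0 y hy
    | succ j ih =>
      intro y hy
      rw [hVs j, popSum, mem_filter] at hy
      have := popSum_bound U (V j) N ((j+2)*N) hU ih y hy.1
      have e : (j+2)*N + N = (j+1+2)*N := by ring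
      rw [e] at this
      exact this
  have hcard : ∀ j, ((V j).card : ℝ) ≤ (j + 3) * N - 1 := by
    intro j
    have h1 := card_le_of_Icc (V j) ((j+2)*N) (hrange j)
    have h2 : ((V j).card : ℝ) ≤ (j+2) * N + 1 := by exact_mod_cast h1
    nlinarith
  -- slow growth somewhere
  have hgrow : ∃ j ≤ J, ((V (j+1)).card : ℝ) ≤ (1 + x) * (V j).card ∧
      c * N ≤ (V j).card := by
    by_contra hcon
    push Not at hcon
    have hind : ∀ j, j ≤ J → (1 + x)^j * (c * N) ≤ (V j).card := by
      intro j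
      induction j with
      | zero => intro _; rw [hVz]; simpa using hV0c
      | succ j ih =>
        intro hj
        have ih' := ih (by omega)
        have h1 : c * N ≤ (V j).card := by
          refine le_trans ?_ ih'
          have : (1:ℝ) ≤ (1+x)^j := one_le_pow₀ (by linarith)
          have h2 : 0 ≤ c * N := by positivity
          nlinarith
        have h2 : (1 + x) * (V j).card < ((V (j+1)).card : ℝ) := by
          by_contra h3
          push Not at h3
          exact absurd h1 (not_le.mpr (hcon j (by omega) h3))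
        calc (1 + x)^(j+1) * (c * N) = (1 + x) * ((1+x)^j * (c * N)) := by ring
          _ ≤ (1 + x) * (V j).card := by gcongr
          _ ≤ _ := h2.le
    have h1 := hind J le_rfl
    have h2 := hcard J
    have h3 : ((J:ℝ) + 3) * N < (1+x)^J * c * N := by
      have : (0:ℝ) < N := by linarith
      exact mul_lt_mul_of_pos_right hJ this
    nlinarith
  obtain ⟨j, hj, hg1, hg2⟩ := hgrow
  have hjR : (j:ℝ) ≤ J := by exact_mod_cast hj
  set η : ℝ := 2 * x * (V j).card with hη
  have hη0 : 0 ≤ η := by positivity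
  have hVjpos : (0:ℝ) < (V j).card := lt_of_lt_of_le (by positivity) hg2
  have hVUc : (((V j) + U).card : ℝ) ≤ (J + 4) * N := by
    have h1 := card_le_of_Icc _ _ (popSum_bound U (V j) N ((j+2)*N) hU (hrange j))
    have h2 : (((V j) + U).card : ℝ) ≤ (j+2) * N + N + 1 := by exact_mod_cast h1
    nlinarith
  -- among any m integers in [0, 10 N] two differ by an almost period
  have hpair : ∀ t : ℕ → ℤ, (∀ i < m, 0 ≤ t i ∧ t i ≤ ((10 * N : ℕ) : ℤ)) →
      ∃ i k, i < k ∧ k < m ∧ (esh (V j) (t k - t i) : ℝ) ≤ η := by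
    intro t ht
    obtain ⟨i, k, hik, hkm, hW⟩ := exists_pop_diff U N 10 m c hN2 hU hUc
      (by push_cast; linarith) t ht
    refine ⟨i, k, hik, hkm, ?_⟩
    set d := t k - t i with hd
    set W := U.filter (fun y => y + d ∈ U) with hWdef
    have hWpos : 0 < W.card := by
      rcases Nat.eq_zero_or_pos W.card with h | h
      · rw [h] at hW
        simp only [Nat.cast_zero, mul_zero] at hW
        linarith
      · exact h
    have hWne : W.Nonempty := card_pos.mp hWpos
    have hT0 : 0 ≤ θ * N := by positivity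
    have hsd := sum_defect U (V j) (θ * N) hT0
    have hs1 : ∑ u ∈ W, (defect U (V j) (θ * N) u : ℝ) ≤ θ * N * ((J + 4) * N) := by
      calc ∑ u ∈ W, (defect U (V j) (θ * N) u : ℝ)
          ≤ ∑ u ∈ U, (defect U (V j) (θ * N) u : ℝ) :=
            sum_le_sum_of_subset_of_nonneg (filter_subset _ _) (fun _ _ _ => by positivity)
        _ ≤ _ := hsd
        _ ≤ _ := by gcongr
    have hs2 : ∑ u ∈ W, (defect U (V j) (θ * N) (u + d) : ℝ) ≤ θ * N * ((J + 4) * N) := by
      calc ∑ u ∈ W, (defect U (V j) (θ * N) (u + d) : ℝ)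
          = ∑ u ∈ W.image (fun y => y + d), (defect U (V j) (θ * N) u : ℝ) := by
            rw [sum_image]
            intro a _ b _ hab
            exact add_right_cancel hab
        _ ≤ ∑ u ∈ U, (defect U (V j) (θ * N) u : ℝ) := by
            apply sum_le_sum_of_subset_of_nonneg
            · intro z hz
              rw [mem_image] at hz
              obtain ⟨y, hy, rfl⟩ := hz
              rw [hWdef, mem_filter] at hy
              exact hy.2
            · intros; positivity
        _ ≤ _ := hsd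
        _ ≤ _ := by gcongr
    have hs3 : ∑ u ∈ W, ((defect U (V j) (θ * N) u : ℝ) + (defect U (V j) (θ * N) (u + d) : ℝ))
        ≤ ∑ u ∈ W, (2 * (θ * N * ((J + 4) * N)) / W.card) := by
      rw [sum_add_distrib, sum_const, nsmul_eq_mul]
      have : (W.card : ℝ) * (2 * (θ * N * ((J + 4) * N)) / W.card) = 2 * (θ * N * ((J + 4) * N)) := by
        have : (W.card : ℝ) ≠ 0 := by positivity
        field_simp
      rw [this]; linarith
    obtain ⟨u, huW, hu⟩ := exists_le_of_sum_le hWne hs3
    rw [hWdef, mem_filter] at huW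
    have hce := card_add_esh_le U (V j) (θ * N) u d huW.1 huW.2
    rw [← hVs j] at hce
    have hce' : ((V j).card : ℝ) + (esh (V j) d : ℝ) ≤ (V (j+1)).card +
        (defect U (V j) (θ * N) u : ℝ) + (defect U (V j) (θ * N) (u + d) : ℝ) := by
      exact_mod_cast hce
    have hb : 2 * (θ * N * ((J + 4) * N)) / W.card ≤ x * (c * N) := by
      rw [div_le_iff₀ (by exact_mod_cast hWpos)]
      have hJ4 : (0:ℝ) < (J:ℝ) + 4 := by positivity
      have e1 : 2 * (θ * N * ((J + 4) * N)) = x * c * N * (N / (m:ℝ)^2) := by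
        rw [hθ]; field_simp
      rw [e1]
      have e2 : (N:ℝ) / (m:ℝ)^2 ≤ W.card := by
        rw [div_le_iff₀ (by positivity), mul_comm]; exact hW
      calc x * c * N * (N / (m:ℝ)^2) ≤ x * c * N * W.card := by gcongr
        _ = x * (c * N) * W.card := by ring
    have hb2 : x * (c * N) ≤ x * (V j).card := by gcongr
    rw [hη]
    nlinarith
  obtain ⟨q, hq1, hqm, hq⟩ := exists_period (V j) m (10 * N) (by omega) η hη0 hpair
  have h2mη : 2 * (m:ℝ) * η = (V j).card / 8 := by
    rw [hη, hx]; field_simp; norm_num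
  rw [h2mη] at hq
  have hVne : (V j).Nonempty := by
    rw [← card_pos]; exact_mod_cast hVjpos
  obtain ⟨v, hv, hprog⟩ := exists_progression (V j) hVne q (10 * N / q + 1) (by
    intro s hs
    apply hq
    have h1 : s ≤ 10 * N / q := by omega
    calc q * s ≤ q * (10 * N / q) := Nat.mul_le_mul_left q h1
      _ ≤ 10 * N := Nat.mul_div_le _ _)
  refine ⟨j, hj, q, hq1, hqm, 2 * v - ((q * (10 * N / q) : ℕ) : ℤ), ?_, ?_⟩
  · have h1 := (hrange j v hv).2
    have h2 : (0:ℤ) ≤ ((q * (10 * N / q) : ℕ) : ℤ) := by positivity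
    have h3 : (((j + 2) * N : ℕ) : ℤ) ≤ (((J + 2) * N : ℕ) : ℤ) := by
      exact_mod_cast Nat.mul_le_mul_right N (by omega)
    have h4 : ((2 * (J + 2) * N : ℕ) : ℤ) = 2 * (((J + 2) * N : ℕ) : ℤ) := by push_cast; ring
    rw [h4]
    linarith
  · intro z hz1 hz2 hz3
    obtain ⟨i, hi⟩ := hz3
    have hqpos : (0:ℤ) < q := by exact_mod_cast hq1
    have hi0 : 0 ≤ i := by
      by_contra hneg
      push Not at hneg
      have : (q:ℤ) * i < 0 := mul_neg_of_pos_of_neg hqpos hneg
      linarith
    obtain ⟨i', rfl⟩ := Int.eq_ofNat_of_zero_le hi0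
    have hqi : q * i' ≤ 4 * N := by
      have : (q:ℤ) * i' ≤ 4 * N := by linarith
      exact_mod_cast this
    have hi2 : 2 * i' + 1 ≤ 10 * N / q := by
      rw [Nat.le_div_iff_mul_le (by omega)]
      have : (2 * i' + 1) * q = 2 * (q * i') + q := by ring
      omega
    obtain ⟨a, ha, b, hb, hab⟩ := hprog (10 * N / q - i') (by omega) (by omega)
    refine ⟨a, ha, b, hb, ?_⟩
    rw [hab]
    have e : ((q * (10 * N / q - i') : ℕ) : ℤ) = ((q * (10 * N / q) : ℕ) : ℤ) - (q:ℤ) * i' := by
      rw [Nat.cast_mul, Nat.cast_sub (by omega), Nat.cast_mul]; ring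
    rw [e]
    linarith

end Pool.Agent.RestrictedExplicit
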