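import Mathlib
import Pool.Agent.RestrictedOrder.System
import Pool.Agent.RestrictedExplicit.Structure

set_option autoImplicit false

/-!
# The proposition at one scale, explicit constants
-/

namespace Pool.Agent.RestrictedExplicit

open Finset
open Pool.Agent.RestrictedOrder

/-- Explicit parameters `m = O(1/c)`, `J = O(1/c^3)` for `structure_core`. -/
lemma exists_params (c : ℝ) (hc : 0 < c) (hc1 : c ≤ 1) : ∃ m J : ℕ, (13:ℝ) ≤ c * m ∧
    (m:ℝ) ≤ 14 / c ∧ (J:ℝ) + 3 < (1 + 1 / (32 * (m:ℝ)))^J * c ∧ (J:ℝ) ≤ 2^21 / c^3 := by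
  obtain ⟨m, hm1, hm2⟩ : ∃ m : ℕ, (13:ℝ) ≤ c * m ∧ (m:ℝ) ≤ 14 / c := by
    refine ⟨⌊13 / c⌋₊ + 1, ?_, ?_⟩
    · have h1 := Nat.lt_floor_add_one (13 / c)
      rw [div_lt_iff₀ hc] at h1
      push_cast
      linarith
    · have h1 := Nat.floor_le (a := 13 / c) (by positivity)
      have h2 : 1 ≤ 1 / c := by rw [le_div_iff₀ hc]; linarith
      push_cast
      calc ((⌊13 / c⌋₊ : ℕ) : ℝ) + 1 ≤ 13 / c + 1 / c := by linarith
        _ = 14 / c := by ring
  have hm0 : (0:ℝ) < m := by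
    rcases Nat.eq_zero_or_pos m with h | h
    · rw [h] at hm1; simp only [Nat.cast_zero, mul_zero] at hm1; linarith
    · exact_mod_cast h
  set x : ℝ := 1 / (32 * (m:ℝ)) with hx
  have hx0 : 0 < x := by positivity
  have hpos : 0 < c * x^2 := by positivity
  set n : ℕ := ⌊5 / (c * x^2)⌋₊ + 1 with hn
  have hn1 : 5 / (c * x^2) < n := by
    rw [hn]; push_cast; exact Nat.lt_floor_add_one _
  have hn2 : (n:ℝ) ≤ 5 / (c * x^2) + 1 := by
    have h1 := Nat.floor_le (a := 5 / (c * x^2)) (by positivity)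
    rw [hn]; push_cast; linarith
  have hn3 : (1:ℝ) ≤ n := by rw [hn]; push_cast; linarith [Nat.cast_nonneg (α := ℝ) ⌊5 / (c * x^2)⌋₊]
  refine ⟨m, 2 * n, hm1, hm2, ?_, ?_⟩
  · rw [div_lt_iff₀ hpos] at hn1
    have h1 : 1 + (n:ℝ) * x ≤ (1 + x)^n := one_add_mul_le_pow (by linarith) n
    have h2 : ((n:ℝ) * x)^2 ≤ ((1+x)^n)^2 := by
      have : 0 ≤ (n:ℝ) * x := by positivity
      exact pow_le_pow_left₀ this (by linarith) 2
    have h3 : (1+x)^(2*n) = ((1+x)^n)^2 := by rw [← pow_mul, mul_comm]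
    rw [h3]
    push_cast
    have h4 : 5 * (n:ℝ) < ((n:ℝ) * x)^2 * c := by nlinarith
    have h5 : ((n:ℝ) * x)^2 * c ≤ ((1+x)^n)^2 * c := by gcongr
    linarith
  · have e1 : 5 / (c * x^2) = 5120 * (m:ℝ)^2 / c := by
      rw [hx]; field_simp; norm_num
    have e2 : (m:ℝ)^2 ≤ 196 / c^2 := by
      calc (m:ℝ)^2 ≤ (14 / c)^2 := by gcongr
        _ = 196 / c^2 := by rw [div_pow]; norm_num
    have e3 : 5120 * (m:ℝ)^2 / c ≤ 1003520 / c^3 := by
      calc 5120 * (m:ℝ)^2 / c ≤ 5120 * (196 / c^2) / c := by gcongr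
        _ = 1003520 / c^3 := by field_simp; norm_num
    have hc3 : 0 < c^3 := by positivity
    have hc31 : c^3 ≤ 1 := pow_le_one₀ hc.le hc1
    have e4 : (1:ℝ) ≤ 1 / c^3 := by rw [le_div_iff₀ hc3]; linarith
    push_cast
    calc 2 * (n:ℝ) ≤ 2 * (1003520 / c^3 + 1 / c^3) := by linarith
      _ = 2007042 / c^3 := by ring
      _ ≤ 2^21 / c^3 := by gcongr; norm_num

/-- The main proposition at one scale with explicit constants. -/
theorem scale_exp (h : ℕ) (c : ℝ) (hc : 0 < c) (hc1 : c ≤ 1) :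
    ∃ (m b C : ℕ) (κ τ : ℝ) (N0 : ℕ), 0 < κ ∧ 0 < τ ∧
      (m:ℝ) ≤ 28 * (1 / c) ∧ (b:ℝ) ≤ 2^26 * h * (1 / c^3) ∧ (C:ℝ) ≤ 2^26 * (1 / c^3) ∧
      c^7 / 2^49 ≤ κ ∧ c^10 / (2^75 * (h+1)) ≤ τ ∧
    ∀ (A : Set ℕ) (N : ℕ) (U : Finset (Finset ℕ)), N0 ≤ N → IsSystem A h N U → c * N ≤ U.card →
      (∀ a, (pop U {a} : ℝ) ≤ τ * N) →
      ∃ q : ℕ, 1 ≤ q ∧ q ≤ m ∧ ∃ w : ℕ, w ≤ C * N ∧
        ∀ z : ℕ, w ≤ z → z ≤ w + 4 * N → (q:ℤ) ∣ (z:ℤ) - w → Rob A U (κ * N) b (z:ℤ) := by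
  classical
  obtain ⟨m, J, hm13, hm14, hJ3, hJ21⟩ := exists_params (c/2) (by positivity) (by linarith)
  set θ : ℝ := 1 / (32 * (m:ℝ)) * (c/2) / (2 * (m:ℝ)^2 * (J + 4)) with hθd
  have hst := structure_core (c/2) (by positivity) m J hm13 hJ3 θ hθd
  have hmb : (m:ℝ) ≤ 28 * (1 / c) := by
    calc (m:ℝ) ≤ 14 / (c/2) := hm14
      _ = 28 * (1 / c) := by field_simp; norm_num
  have hJb : (J:ℝ) ≤ 2^24 / c^3 := by
    calc (J:ℝ) ≤ 2^21 / (c/2)^3 := hJ21
      _ = 2^24 / c^3 := by field_simp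
  have hm0 : (0:ℝ) < m := by
    rcases Nat.eq_zero_or_pos m with h | h
    · rw [h] at hm13; simp only [Nat.cast_zero, mul_zero] at hm13; linarith
    · exact_mod_cast h
  have hθ : 0 < θ := by rw [hθd]; positivity
  have hθb : c^7 / 2^47 ≤ θ := by
    have hc3 : 0 < c^3 := by positivity
    have hc31 : c^3 ≤ 1 := pow_le_one₀ hc.le hc1
    have h1c3 : 1 ≤ 1 / c^3 := by rw [le_div_iff₀ hc3]; linarith
    have h1 : (m:ℝ)^3 ≤ 2^15 / c^3 := by
      calc (m:ℝ)^3 ≤ (28 * (1 / c))^3 := by gcongr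
        _ = 21952 / c^3 := by field_simp; norm_num
        _ ≤ 2^15 / c^3 := by gcongr; norm_num
    have h2 : (J:ℝ) + 4 ≤ 2^25 / c^3 := by
      calc (J:ℝ) + 4 ≤ 2^24 / c^3 + 4 * (1 / c^3) := by linarith
        _ = (2^24 + 4) / c^3 := by ring
        _ ≤ 2^25 / c^3 := by gcongr; norm_num
    have e : θ = c / (128 * ((m:ℝ)^3 * (J + 4))) := by rw [hθd]; field_simp; norm_num
    rw [e, le_div_iff₀ (by positivity)]
    calc c^7 / 2^47 * (128 * ((m:ℝ)^3 * (J + 4)))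
        ≤ c^7 / 2^47 * (128 * ((2^15 / c^3) * (2^25 / c^3))) := by gcongr
      _ = c := by field_simp; norm_num
  set κ0 : ℝ := min (θ/2) (c^2/24) with hκ0
  have hκ0pos : 0 < κ0 := lt_min (by positivity) (by positivity)
  set τ : ℝ := min (κ0 / (2 * (2 * J + 4) * (h + 1))) (c / (4 * (h + 1))) with hτ
  have hτpos : 0 < τ := lt_min (by positivity) (by positivity)
  have hτ1 : (2 * J + 4) * (h * τ) ≤ κ0 / 2 := by
    have h1 : τ ≤ κ0 / (2 * (2 * J + 4) * (h + 1)) := min_le_left _ _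
    rw [le_div_iff₀ (by positivity)] at h1
    have : 0 ≤ (2 * (J:ℝ) + 4) * τ := by positivity
    nlinarith
  have hτ2 : h * τ ≤ c / 4 := by
    have h1 : τ ≤ c / (4 * (h + 1)) := min_le_right _ _
    rw [le_div_iff₀ (by positivity)] at h1
    nlinarith
  have hc3 : 0 < c^3 := by positivity
  have hc31 : c^3 ≤ 1 := pow_le_one₀ hc.le hc1
  have h1c3 : 1 ≤ 1 / c^3 := by rw [le_div_iff₀ hc3]; linarith
  have hJ4 : (J:ℝ) ≤ 2^24 * (1 / c^3) := by rw [mul_one_div]; exact hJb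
  have hκ0b : c^7 / 2^48 ≤ κ0 := by
    rw [hκ0, le_min_iff]
    constructor
    · calc c^7 / 2^48 = c^7 / 2^47 / 2 := by ring
        _ ≤ θ / 2 := by gcongr
    · have e : c^7 = c^2 * c^5 := by ring
      have h5 : c^5 ≤ 1 := pow_le_one₀ hc.le hc1
      have h2 : 0 < c^2 := by positivity
      calc c^7 / 2^48 = c^2 * c^5 / 2^48 := by rw [e]
        _ ≤ c^2 * 1 / 24 := by
            apply div_le_div₀ (by positivity) (by gcongr) (by norm_num) (by norm_num)
        _ = c^2 / 24 := by ring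
  have hτb : c^10 / (2^75 * (h+1)) ≤ τ := by
    rw [hτ, le_min_iff]
    have hh : (0:ℝ) < h + 1 := by positivity
    constructor
    · rw [le_div_iff₀ (by positivity)]
      have h1 : 2 * (2 * (J:ℝ) + 4) ≤ 2^27 * (1 / c^3) := by linarith
      calc c^10 / (2^75 * (h+1)) * (2 * (2 * J + 4) * (h + 1))
          = (c^10 / 2^75) * (2 * (2 * J + 4)) := by field_simp
        _ ≤ (c^10 / 2^75) * (2^27 * (1 / c^3)) := by gcongr
        _ = c^7 / 2^48 := by field_simp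
        _ ≤ κ0 := hκ0b
    · have h9 : c^9 ≤ 1 := pow_le_one₀ hc.le hc1
      have e : c^10 = c * c^9 := by ring
      rw [e]
      apply div_le_div₀ hc.le (by nlinarith) (by positivity)
      have : (4:ℝ) ≤ 2^75 := by norm_num
      gcongr
  have hbb : (((2 * (J + 2)) * h : ℕ) : ℝ) ≤ 2^26 * h * (1 / c^3) := by
    push_cast
    have h1 : 2 * ((J:ℝ) + 2) ≤ 2^26 * (1 / c^3) := by linarith
    calc 2 * ((J:ℝ) + 2) * h ≤ 2^26 * (1 / c^3) * h := by gcongr
      _ = _ := by ring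
  have hCb : ((2 * (J + 2) : ℕ) : ℝ) ≤ 2^26 * (1 / c^3) := by
    push_cast
    linarith
  refine ⟨m, (2 * (J + 2)) * h, 2 * (J + 2), κ0 / 2, τ, m + 2 + 1, by positivity, hτpos,
    hmb, hbb, hCb, by linarith, hτb, ?_⟩
  intro A N U hN hU hUc hpop
  have hN1 : 1 ≤ N := by omega
  have hNR : (1:ℝ) ≤ N := by exact_mod_cast hN1
  have hN0 : (0:ℝ) < N := by linarith
  set V0 := (Icc (0:ℤ) ((2 * N : ℕ) : ℤ)).filter (fun x => Rob A U (κ0 * N) (2 * h) x) with hV0
  have hV0c : c / 2 * N ≤ V0.card := by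
    apply rob_count hU c (τ * N) (κ0 * N) hc hN1 (by positivity) (by positivity) hpop hUc
    · nlinarith
    · have : κ0 ≤ c^2/24 := min_le_right _ _
      gcongr
  set V : ℕ → Finset ℤ := fun j => Nat.rec V0 (fun _ W => popSum (sums U) W (θ * N)) j with hV
  have hVz : V 0 = V0 := rfl
  have hVs : ∀ j, V (j+1) = popSum (sums U) (V j) (θ * N) := fun j => rfl
  obtain ⟨j, hj, q, hq1, hqm, w, hw, hprog⟩ := hst N (by omega) (sums U) V0 (sums_range hU)
    (by
      intro x hx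
      rw [hV0, mem_filter, mem_Icc] at hx
      exact hx.1)
    (by
      rw [card_sums hU]
      have : c / 2 * N ≤ c * N := by nlinarith
      linarith) hV0c V hVz hVs
  -- all elements of V j are robust
  have hrob : ∀ j, ∀ x ∈ V j, Rob A U (κ0 * N - j * (h * (τ * N))) ((j + 2) * h) x := by
    intro j
    induction j with
    | zero =>
      intro x hx
      rw [hVz, hV0, mem_filter] at hx
      have := hx.2
      simpa using this
    | succ j ih =>
      intro x hx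
      rw [hVs j] at hx
      have hT : κ0 * N - ((j+1 : ℕ) : ℝ) * (h * (τ * N)) < θ * N := by
        have h1 : κ0 ≤ θ/2 := min_le_left _ _
        have h2 : 0 ≤ ((j+1 : ℕ) : ℝ) * (h * (τ * N)) := by positivity
        have h3 : κ0 * N ≤ θ / 2 * N := by gcongr
        have h4 : θ / 2 * N < θ * N := by
          apply mul_lt_mul_of_pos_right _ hN0
          linarith
        linarith
      have := rob_popSum hU (τ * N) (κ0 * N - ((j+1 : ℕ) : ℝ) * (h * (τ * N))) (θ * N)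
        (by positivity) hpop hT ((j + 2) * h) (V j) (by
          intro y hy
          have h5 := ih y hy
          have e : κ0 * (N:ℝ) - ((j+1 : ℕ) : ℝ) * (h * (τ * N)) + h * (τ * N)
              = κ0 * N - j * (h * (τ * N)) := by push_cast; ring
          rw [e]; exact h5) x hx
      have e : (j + 2) * h + h = (j + 1 + 2) * h := by ring
      rw [e] at this
      exact this
  have hjR : (j:ℝ) ≤ J := by exact_mod_cast hj
  have hjh : (j + 2) * h ≤ (J + 2) * h := Nat.mul_le_mul_right h (by omega)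
  have hhτN : 0 ≤ h * (τ * N) := by positivity
  have hfinal : ∀ z : ℤ, w ≤ z → z ≤ w + 4 * N → (q:ℤ) ∣ z - w →
      Rob A U (κ0 / 2 * N) ((2 * (J + 2)) * h) z := by
    intro z hz1 hz2 hz3
    obtain ⟨x, hx, y, hy, hxy⟩ := hprog z hz1 hz2 hz3
    intro E hE
    have hbud : (2 * J + 4) * (h * (τ * N)) ≤ κ0 / 2 * N := by nlinarith
    have hj1 : (j:ℝ) * (h * (τ * N)) ≤ J * (h * (τ * N)) := by gcongr
    obtain ⟨B1, hB1A, hB1E, hB1c, hB1s⟩ := hrob j x hx E (by nlinarith)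
    obtain ⟨B2, hB2A, hB2E, hB2c, hB2s⟩ := hrob j y hy (E ∪ B1) (by
      have h6 : (pop U (E ∪ B1) : ℝ) ≤ pop U E + pop U B1 := by exact_mod_cast pop_union_le U E B1
      have h8 := pop_le_card_mul U B1 (τ * N) (fun a _ => hpop a)
      have h9 : (B1.card : ℝ) ≤ (J + 2) * h := by exact_mod_cast hB1c.trans hjh
      have h10 : (B1.card : ℝ) * (τ * N) ≤ ((J + 2) * h) * (τ * N) := by gcongr
      nlinarith)
    rw [disjoint_union_right] at hB2E
    refine ⟨B1 ∪ B2, ?_, ?_, ?_, ?_⟩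
    · rw [coe_union]; exact Set.union_subset hB1A hB2A
    · rw [disjoint_union_left]; exact ⟨hB1E, hB2E.1⟩
    · have h1 := card_union_le B1 B2
      have h2 : (2 * (J + 2)) * h = (J+2) * h + (J+2) * h := by ring
      omega
    · rw [sum_union hB2E.2.symm]
      push_cast at hB1s hB2s ⊢
      linarith
  have hw0 : 0 ≤ w := by
    obtain ⟨B, -, -, -, hBs⟩ := hfinal w le_rfl (by linarith) (by simp) ∅ (by
      rw [pop_empty]; simp only [Nat.cast_zero]; positivity)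
    rw [← hBs]; positivity
  obtain ⟨w', rfl⟩ := Int.eq_ofNat_of_zero_le hw0
  refine ⟨q, hq1, hqm, w', by exact_mod_cast hw, ?_⟩
  intro z hz1 hz2 hz3
  exact hfinal z (by exact_mod_cast hz1) (by exact_mod_cast hz2) hz3

end Pool.Agent.RestrictedExplicit
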