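import Mathlib
import Pool.Agent.RestrictedOrder.Final
import Pool.Agent.RestrictedExplicit.Scale

set_option autoImplicit false

/-!
# Explicit bound for the restricted order, from a purely local hypothesis
-/

namespace Pool.Agent.RestrictedExplicit

open Finset Filter
open Pool.Agent.RestrictedOrder

/-- First base quantity. -/
def bB (h : ℕ) : ℕ := 2^75 * (h+1)^(h+1)
/-- Reciprocal of a lower bound for all densities of the first chain. -/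
def bP (h : ℕ) : ℕ := bB h ^ (2 * 10^h)
/-- Base of the second chain. -/
def bQ (h : ℕ) : ℕ := 2^83 * (h+1)^2 * bP h ^ 10
/-- The explicit bound produced by the proof. -/
def bF (h : ℕ) : ℕ := 2^26 * h * bP h^3 + (2^29 * bP h^3 * bQ h^(2^(h+1))) * h + 2 * (28 * bP h)

lemma bB_one_le (h : ℕ) : 1 ≤ bB h := Nat.one_le_iff_ne_zero.mpr (by unfold bB; positivity)

lemma bP_one_le (h : ℕ) : 1 ≤ bP h := Nat.one_le_pow _ _ (bB_one_le h)

lemma bQ_one_le (h : ℕ) : 1 ≤ bQ h := by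
  have := bP_one_le h
  exact Nat.one_le_iff_ne_zero.mpr (by unfold bQ; positivity)

lemma res_loc (A : Set ℕ) (q : ℕ) (hq : 1 ≤ q)
    (H : ∀ r : ℕ, ∃ s : Finset ℕ, (↑s : Set ℕ) ⊆ A ∧ (∑ x ∈ s, x) % q = r % q) (r : ℕ) :
    ∃ B : Finset ℕ, (↑B : Set ℕ) ⊆ A ∧ B.card ≤ 2 * q ∧ (q:ℤ) ∣ ((∑ x ∈ B, x : ℕ) : ℤ) - r := by
  classical
  obtain ⟨s, hsA, hss⟩ := H r
  set P := s.powerset.filter (fun B => (q:ℤ) ∣ ((∑ x ∈ B, x : ℕ) : ℤ) - r) with hP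
  have hPne : P.Nonempty := by
    refine ⟨s, ?_⟩
    rw [hP, mem_filter, mem_powerset]
    refine ⟨subset_rfl, ?_⟩
    exact (Nat.modEq_iff_dvd.mp (show r ≡ ∑ x ∈ s, x [MOD q] from hss.symm))
  obtain ⟨B, hB, hBmin⟩ := exists_min_image P card hPne
  rw [hP, mem_filter, mem_powerset] at hB
  refine ⟨B, ?_, ?_, hB.2⟩
  · exact (coe_subset.mpr hB.1).trans hsA
  · by_contra hcon
    push Not at hcon
    obtain ⟨t, htB, htc, htd⟩ := Int.erdos_ginzburg_ziv (n := q) (s := B) (fun x : ℕ => (x:ℤ))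
      (by omega)
    have hmem : B \ t ∈ P := by
      rw [hP, mem_filter, mem_powerset]
      refine ⟨sdiff_subset.trans hB.1, ?_⟩
      have h1 : ∑ x ∈ B \ t, x + ∑ x ∈ t, x = ∑ x ∈ B, x := sum_sdiff htB
      have h2 : ((∑ x ∈ B \ t, x : ℕ) : ℤ) - r
          = (((∑ x ∈ B, x : ℕ) : ℤ) - r) - ∑ x ∈ t, (x:ℤ) := by
        rw [← h1]; push_cast; ring
      rw [h2]
      exact dvd_sub hB.2 htd
    have := hBmin _ hmem
    rw [card_sdiff_of_subset htB] at this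
    omega

lemma residues_loc (A : Set ℕ) (q : ℕ) (hq : 1 ≤ q)
    (H : ∀ r : ℕ, ∃ s : Finset ℕ, (↑s : Set ℕ) ⊆ A ∧ (∑ x ∈ s, x) % q = r % q) :
    ∃ R : Finset ℕ, (↑R : Set ℕ) ⊆ A ∧ R.card ≤ 2 * q ^ 2 ∧
      ∀ r : ℤ, ∃ B ⊆ R, B.card ≤ 2 * q ∧ (q:ℤ) ∣ ((∑ x ∈ B, x : ℕ) : ℤ) - r := by
  classical
  choose B hB1 hB2 hB3 using fun r : ℕ => res_loc A q hq H r
  refine ⟨(range q).biUnion B, ?_, ?_, ?_⟩
  · intro x hx
    rw [mem_coe, mem_biUnion] at hx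
    obtain ⟨i, -, hi⟩ := hx
    exact hB1 i hi
  · calc ((range q).biUnion B).card ≤ ∑ i ∈ range q, (B i).card := card_biUnion_le
      _ ≤ ∑ i ∈ range q, 2 * q := sum_le_sum (fun i _ => hB2 i)
      _ = 2 * q ^ 2 := by rw [sum_const, card_range, smul_eq_mul]; ring
  · intro r
    have hq0 : (0:ℤ) < q := by exact_mod_cast hq
    have h1 : 0 ≤ r % q := Int.emod_nonneg r hq0.ne'
    have h2 : r % q < q := Int.emod_lt_of_pos r hq0
    obtain ⟨i, hi⟩ := Int.eq_ofNat_of_zero_le h1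
    have hiq : i < q := by
      have : (i:ℤ) < q := by rw [← hi]; exact h2
      exact_mod_cast this
    refine ⟨B i, ?_, hB2 i, ?_⟩
    · intro x hx
      rw [mem_biUnion]
      exact ⟨i, mem_range.mpr hiq, hx⟩
    · have h3 : ((∑ x ∈ B i, x : ℕ) : ℤ) - r
          = (((∑ x ∈ B i, x : ℕ) : ℤ) - i) - (r - r % q) := by rw [hi]; ring
      rw [h3]
      exact dvd_sub (hB3 i) (Int.dvd_self_sub_emod)

/-- Facts about the first chain `c ↦ c^10 / (2^75 (h+1))`. -/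
lemma chain_one (h : ℕ) (Ψ : ℝ → ℝ) (hΨ : Ψ = fun c => c^10 / (2^75 * ((h:ℝ)+1))) (c0 : ℝ)
    (hc0 : c0 = 1 / (2 * ((h:ℝ)+1)^h)) (i : ℕ) :
    0 < Ψ^[i] c0 ∧ Ψ^[i] c0 ≤ 1 ∧ (bB h : ℝ) ≤ Ψ^[i] c0 * (bB h : ℝ)^(2 * 10^i) := by
  have hh : (1:ℝ) ≤ (h:ℝ) + 1 := by linarith [(Nat.cast_nonneg h : (0:ℝ) ≤ h)]
  have hp : (1:ℝ) ≤ ((h:ℝ)+1)^h := one_le_pow₀ hh
  have hB : (bB h : ℝ) = 2^75 * ((h:ℝ)+1)^(h+1) := by unfold bB; push_cast; ring
  have hB1 : (1:ℝ) ≤ bB h := by exact_mod_cast bB_one_le h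
  have hBh : 2^75 * ((h:ℝ)+1) ≤ bB h := by
    rw [hB]
    have : (h:ℝ) + 1 ≤ ((h:ℝ)+1)^(h+1) := le_self_pow₀ hh (by omega)
    gcongr
  induction i with
  | zero =>
    rw [Function.iterate_zero, id_eq, hc0]
    refine ⟨by positivity, ?_, ?_⟩
    · rw [div_le_one (by positivity)]; linarith
    · rw [pow_zero, mul_one, div_mul_eq_mul_div, le_div_iff₀ (by positivity), one_mul, sq]
      have : 2 * ((h:ℝ)+1)^h ≤ bB h := by
        rw [hB]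
        exact mul_le_mul (by norm_num) (pow_le_pow_right₀ hh (Nat.le_succ h)) (by positivity)
          (by norm_num)
      exact mul_le_mul_of_nonneg_left this (by positivity)
  | succ i ih =>
    obtain ⟨h1, h2, h3⟩ := ih
    rw [Function.iterate_succ_apply']
    set c := Ψ^[i] c0 with hc
    have hΨc : Ψ c = c^10 / (2^75 * ((h:ℝ)+1)) := by rw [hΨ]
    rw [hΨc]
    have hden : (1:ℝ) ≤ 2^75 * ((h:ℝ)+1) := by nlinarith
    refine ⟨by positivity, ?_, ?_⟩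
    · rw [div_le_one (by positivity)]
      exact (pow_le_one₀ h1.le h2).trans hden
    · have e : c^10 / (2^75 * ((h:ℝ)+1)) * (bB h : ℝ)^(2 * 10^(i+1))
          = (c * (bB h : ℝ)^(2 * 10^i))^10 / (2^75 * ((h:ℝ)+1)) := by
        rw [mul_pow, ← pow_mul]
        have : 2 * 10^(i+1) = 2 * 10^i * 10 := by ring
        rw [this]; ring
      rw [e, le_div_iff₀ (by positivity)]
      calc (bB h : ℝ) * (2^75 * ((h:ℝ)+1)) ≤ (bB h : ℝ) * bB h := by gcongr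
        _ = (bB h : ℝ)^2 := by ring
        _ ≤ (bB h : ℝ)^10 := pow_le_pow_right₀ hB1 (by norm_num)
        _ ≤ _ := by gcongr

lemma chain_one_P (h : ℕ) (Ψ : ℝ → ℝ) (hΨ : Ψ = fun c => c^10 / (2^75 * ((h:ℝ)+1))) (c0 : ℝ)
    (hc0 : c0 = 1 / (2 * ((h:ℝ)+1)^h)) (i : ℕ) (hi : i ≤ h) :
    1 ≤ Ψ^[i] c0 * (bP h : ℝ) := by
  obtain ⟨h1, -, h3⟩ := chain_one h Ψ hΨ c0 hc0 i
  have hB1 : (1:ℝ) ≤ bB h := by exact_mod_cast bB_one_le h
  have hP : (bP h : ℝ) = (bB h : ℝ)^(2 * 10^h) := by unfold bP; push_cast; ring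
  rw [hP]
  have h4 : (bB h : ℝ)^(2 * 10^i) ≤ (bB h : ℝ)^(2 * 10^h) :=
    pow_le_pow_right₀ hB1 (Nat.mul_le_mul_left 2 (Nat.pow_le_pow_right (by norm_num) hi))
  calc (1:ℝ) ≤ bB h := hB1
    _ ≤ _ := h3
    _ ≤ _ := by gcongr

/-- Facts about the second chain `c ↦ c^2 / Q`. -/
lemma chain_two (Q : ℝ) (hQ : 1 ≤ Q) (Ψ : ℝ → ℝ) (hΨ : Ψ = fun c => c^2 / Q) (c0 : ℝ)
    (hc0 : 0 < c0) (hc1 : c0 ≤ 1) (hcQ : 1 ≤ c0 * Q) (i : ℕ) :
    0 < Ψ^[i] c0 ∧ Ψ^[i] c0 ≤ 1 ∧ Q ≤ Ψ^[i] c0 * Q^(2^(i+1)) := by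
  induction i with
  | zero =>
    rw [Function.iterate_zero, id_eq]
    refine ⟨hc0, hc1, ?_⟩
    have : c0 * Q^(2^(0+1)) = (c0 * Q) * Q := by ring
    rw [this]; nlinarith
  | succ i ih =>
    obtain ⟨h1, h2, h3⟩ := ih
    rw [Function.iterate_succ_apply']
    set c := Ψ^[i] c0 with hc
    have hΨc : Ψ c = c^2 / Q := by rw [hΨ]
    rw [hΨc]
    have hQ0 : 0 < Q := by linarith
    refine ⟨by positivity, ?_, ?_⟩
    · rw [div_le_one hQ0]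
      exact (pow_le_one₀ h1.le h2).trans hQ
    · have e : c^2 / Q * Q^(2^(i+1+1)) = (c * Q^(2^(i+1)))^2 / Q := by
        rw [mul_pow, ← pow_mul]
        have : 2^(i+1+1) = 2^(i+1) * 2 := by ring
        rw [this]; ring
      rw [e, le_div_iff₀ hQ0]
      calc Q * Q = Q^2 := by ring
        _ ≤ _ := by gcongr

set_option maxHeartbeats 4000000 in
theorem main_exp (h : ℕ) (A : Set ℕ)
    (hA : ∃ n₀ : ℕ, ∀ n, n₀ ≤ n →
      ∃ M : Multiset ℕ, M.card ≤ h ∧ (∀ x ∈ M, x ∈ A) ∧ M.sum = n)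
    (hloc : ∀ q, 1 ≤ q → q ≤ 28 * bP h → ∀ r : ℕ,
      ∃ s : Finset ℕ, (↑s : Set ℕ) ⊆ A ∧ (∑ x ∈ s, x) % q = r % q) :
    ∃ n₁ : ℕ, ∀ n, n₁ ≤ n →
      ∃ s : Finset ℕ, (↑s : Set ℕ) ⊆ A ∧ s.card ≤ bF h ∧ ∑ x ∈ s, x = n := by
  classical
  choose! m b C κ τ N0 hκ hτ hmb hbb hCb hκb hτb hsp using scale_exp h
  have hh0 : (0:ℝ) ≤ h := Nat.cast_nonneg h
  have hP1 : (1:ℝ) ≤ bP h := by exact_mod_cast bP_one_le h
  have hQ1 : (1:ℝ) ≤ bQ h := by exact_mod_cast bQ_one_le h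
  set P : ℝ := (bP h : ℝ) with hPdef
  set Q : ℝ := (bQ h : ℝ) with hQdef
  have hQval : Q = 2^83 * ((h:ℝ)+1)^2 * P^10 := by
    rw [hQdef, hPdef]; unfold bQ; push_cast; ring
  -- first chain
  set Ψ1 : ℝ → ℝ := fun c => c^10 / (2^75 * ((h:ℝ)+1)) with hΨ1
  have hΨ1pos : ∀ c, 0 < c → 0 < Ψ1 c := by
    intro c hc
    simp only [hΨ1]
    positivity
  set c0 : ℝ := 1 / (2 * ((h:ℝ)+1)^h) with hc0
  have hc0pos : 0 < c0 := by positivity
  have hcc : ∀ i, 0 < Ψ1^[i] c0 := fun i => (chain_one h Ψ1 hΨ1 c0 hc0 i).1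
  have hcc1 : ∀ i, Ψ1^[i] c0 ≤ 1 := fun i => (chain_one h Ψ1 hΨ1 c0 hc0 i).2.1
  have hccP : ∀ i ≤ h, 1 ≤ Ψ1^[i] c0 * P := fun i hi => chain_one_P h Ψ1 hΨ1 c0 hc0 i hi
  have hc01 : c0 ≤ 1 := by simpa using hcc1 0
  have hc0P : 1 ≤ c0 * P := by simpa using hccP 0 (Nat.zero_le h)
  have hinv : ∀ i ≤ h, 1 / Ψ1^[i] c0 ≤ P := by
    intro i hi
    rw [div_le_iff₀ (hcc i), mul_comm]; exact hccP i hi
  have hinv3 : ∀ i ≤ h, 1 / (Ψ1^[i] c0)^3 ≤ P^3 := by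
    intro i hi
    rw [div_le_iff₀ (pow_pos (hcc i) 3), ← mul_pow, mul_comm]
    exact one_le_pow₀ (hccP i hi)
  set Cs : ℕ := 2^27 * bP h^3 with hCs
  have hCsR : (Cs:ℝ) = 2^27 * P^3 := by rw [hCs, hPdef]; push_cast; ring
  have hP3 : (1:ℝ) ≤ P^3 := one_le_pow₀ hP1
  set ms : ℕ := 28 * bP h with hms
  have hmsR : (ms:ℝ) = 28 * P := by rw [hms, hPdef]; push_cast; ring
  set bs : ℕ := 2^26 * h * bP h^3 with hbs
  have hbsR : (bs:ℝ) = 2^26 * h * P^3 := by rw [hbs, hPdef]; push_cast; ring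
  set Ns : ℕ := (range (h+1)).sup (fun i => N0 (Ψ1^[i] c0)) with hNs
  have hCs' : ∀ i ≤ h, C (Ψ1^[i] c0) + 3 ≤ Cs := by
    intro i hi
    have h1 := hCb _ (hcc i) (hcc1 i)
    have h2 : ((C (Ψ1^[i] c0) + 3 : ℕ) : ℝ) ≤ (Cs:ℝ) := by
      rw [hCsR]; push_cast
      calc (C (Ψ1^[i] c0) : ℝ) + 3 ≤ 2^26 * (1 / (Ψ1^[i] c0)^3) + 3 := by linarith
        _ ≤ 2^26 * P^3 + 3 := by gcongr; exact hinv3 i hi
        _ ≤ 2^27 * P^3 := by nlinarith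
    exact_mod_cast h2
  have hms' : ∀ i ≤ h, m (Ψ1^[i] c0) ≤ ms := by
    intro i hi
    have h1 := hmb _ (hcc i) (hcc1 i)
    have h2 : ((m (Ψ1^[i] c0) : ℕ) : ℝ) ≤ (ms:ℝ) := by
      rw [hmsR]
      calc (m (Ψ1^[i] c0) : ℝ) ≤ 28 * (1 / Ψ1^[i] c0) := h1
        _ ≤ 28 * P := by gcongr; exact hinv i hi
    exact_mod_cast h2
  have hbs' : ∀ i ≤ h, b (Ψ1^[i] c0) ≤ bs := by
    intro i hi
    have h1 := hbb _ (hcc i) (hcc1 i)
    have h2 : ((b (Ψ1^[i] c0) : ℕ) : ℝ) ≤ (bs:ℝ) := by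
      rw [hbsR]
      calc (b (Ψ1^[i] c0) : ℝ) ≤ 2^26 * h * (1 / (Ψ1^[i] c0)^3) := h1
        _ ≤ 2^26 * h * P^3 := by gcongr; exact hinv3 i hi
    exact_mod_cast h2
  have hNs' : ∀ i ≤ h, N0 (Ψ1^[i] c0) ≤ Ns := fun i hi =>
    le_sup (f := fun i => N0 (Ψ1^[i] c0)) (mem_range.mpr (Nat.lt_succ_of_le hi))
  set κs : ℝ := 1 / (2^49 * P^7) with hκs
  have hP0 : 0 < P := by linarith
  have hκspos : 0 < κs := by positivity
  have hκs' : ∀ i ≤ h, κs ≤ κ (Ψ1^[i] c0) := by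
    intro i hi
    refine le_trans ?_ (hκb _ (hcc i) (hcc1 i))
    rw [hκs, div_le_div_iff₀ (by positivity) (by positivity), one_mul]
    have h1 : 1 ≤ (Ψ1^[i] c0 * P)^7 := one_le_pow₀ (hccP i hi)
    rw [mul_pow] at h1
    calc (2:ℝ)^49 = 1 * 2^49 := by ring
      _ ≤ ((Ψ1^[i] c0)^7 * P^7) * 2^49 := by gcongr
      _ = _ := by ring
  have hΨτ : ∀ c, 0 < c → c ≤ 1 → Ψ1 c ≤ τ c := fun c hc hc' => hτb c hc hc'
  have hΨκ : ∀ c, 0 < c → c ≤ 1 → Ψ1 c ≤ κ c / (4 * (m c + 1)) := by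
    intro c hc hc'
    have h1 := hκb c hc hc'
    have h2 := hmb c hc hc'
    have h3 : 1 ≤ 1 / c := by rw [le_div_iff₀ hc]; linarith
    have h4 : (4 * ((m c : ℝ) + 1)) ≤ 2^7 * (1 / c) := by linarith
    rw [le_div_iff₀ (by positivity)]
    refine le_trans ?_ h1
    simp only [hΨ1]
    calc c^10 / (2^75 * ((h:ℝ)+1)) * (4 * ((m c : ℝ) + 1))
        ≤ c^10 / (2^75 * ((h:ℝ)+1)) * (2^7 * (1 / c)) := by gcongr
      _ = c^7 * (c^2 / (2^68 * ((h:ℝ)+1))) := by field_simp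
      _ ≤ c^7 * (1 / 2^49) := by
          refine mul_le_mul_of_nonneg_left ?_ (by positivity)
          rw [div_le_div_iff₀ (by positivity) (by positivity)]
          have : c^2 ≤ 1 := pow_le_one₀ hc.le hc'
          nlinarith
      _ = c^7 / 2^49 := by ring
  -- second chain
  set M' : ℝ → ℕ := fun c => ⌈2 * ((Cs:ℝ) + 2) / c⌉₊ with hM'
  set τ' : ℝ → ℝ := fun c => κs / (2 * ((M' c : ℝ) * h + 1)) with hτ'
  have hτ'pos : ∀ c, 0 < τ' c := by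
    intro c
    simp only [hτ']
    positivity
  set Ψ2 : ℝ → ℝ := fun c => c^2 / Q with hΨ2
  have hΨ2pos : ∀ c, 0 < c → 0 < Ψ2 c := by
    intro c hc
    simp only [hΨ2]
    positivity
  have hPQ : P ≤ Q := by
    rw [hQval]
    have h1 : (1:ℝ) ≤ ((h:ℝ)+1)^2 := one_le_pow₀ (by linarith)
    have h2 : P ≤ P^10 := le_self_pow₀ hP1 (by norm_num)
    nlinarith
  have hc0Q : 1 ≤ c0 * Q := hc0P.trans (by gcongr)
  have hdd : ∀ i, 0 < Ψ2^[i] c0 := fun i => (chain_two Q hQ1 Ψ2 hΨ2 c0 hc0pos hc01 hc0Q i).1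
  have hdd1 : ∀ i, Ψ2^[i] c0 ≤ 1 := fun i =>
    (chain_two Q hQ1 Ψ2 hΨ2 c0 hc0pos hc01 hc0Q i).2.1
  have hddQ : ∀ i ≤ h, 1 / Ψ2^[i] c0 ≤ Q^(2^(h+1)) := by
    intro i hi
    have h1 := (chain_two Q hQ1 Ψ2 hΨ2 c0 hc0pos hc01 hc0Q i).2.2
    rw [div_le_iff₀ (hdd i), mul_comm]
    have h2 : Q^(2^(i+1)) ≤ Q^(2^(h+1)) :=
      pow_le_pow_right₀ hQ1 (Nat.pow_le_pow_right (by norm_num) (by omega))
    have h3 := hdd i
    calc (1:ℝ) ≤ Q := hQ1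
      _ ≤ Ψ2^[i] c0 * Q^(2^(i+1)) := h1
      _ ≤ _ := by gcongr
  have hM'b : ∀ c, 0 < c → c ≤ 1 → (M' c : ℝ) ≤ 2^29 * P^3 * (1 / c) := by
    intro c hc hc'
    have h3 : 1 ≤ 1 / c := by rw [le_div_iff₀ hc]; linarith
    have h1 : (M' c : ℝ) < 2 * ((Cs:ℝ) + 2) / c + 1 := by
      simp only [hM']
      exact Nat.ceil_lt_add_one (by positivity)
    have h2 : 2 * ((Cs:ℝ) + 2) / c = (2 * ((Cs:ℝ) + 2)) * (1 / c) := by ring
    rw [h2, hCsR] at h1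
    nlinarith
  have hΨ2b : ∀ c, 0 < c → c ≤ 1 →
      Ψ2 c ≤ c / (4 * (2 * h / τ' c + 2 * (ms:ℝ)^2 + (M' c : ℝ) * h + 1)) := by
    intro c hc hc'
    have h3 : 1 ≤ 1 / c := by rw [le_div_iff₀ hc]; linarith
    have hM := hM'b c hc hc'
    set y : ℝ := 1 / c with hy
    have hτinv : 2 * (h:ℝ) / τ' c = 4 * h * ((M' c : ℝ) * h + 1) * (2^49 * P^7) := by
      simp only [hτ', hκs]
      field_simp
      norm_num
      ring
    have hMh : (M' c : ℝ) * h + 1 ≤ 2^29 * P^3 * y * (h + 1) := by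
      have h5 : (M' c : ℝ) * h ≤ 2^29 * P^3 * y * h := by gcongr
      have h6 : (1:ℝ) ≤ 2^29 * P^3 * y := by nlinarith
      linarith
    have hterm1 : 2 * (h:ℝ) / τ' c ≤ 2^80 * P^10 * y * (h+1)^2 := by
      rw [hτinv]
      calc 4 * (h:ℝ) * ((M' c : ℝ) * h + 1) * (2^49 * P^7)
          ≤ 4 * ((h:ℝ)+1) * (2^29 * P^3 * y * (h + 1)) * (2^49 * P^7) := by
            gcongr
            linarith
        _ = 2^80 * P^10 * y * (h+1)^2 := by ring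
    have hP2 : P^2 ≤ P^10 := pow_le_pow_right₀ hP1 (by norm_num)
    have hP310 : P^3 ≤ P^10 := pow_le_pow_right₀ hP1 (by norm_num)
    have hh2 : (1:ℝ) ≤ ((h:ℝ)+1)^2 := one_le_pow₀ (by linarith)
    have hh3 : (h:ℝ) + 1 ≤ ((h:ℝ)+1)^2 := by nlinarith
    have hterm2 : 2 * (ms:ℝ)^2 ≤ 2^11 * P^10 * y * (h+1)^2 := by
      rw [hmsR]
      calc 2 * (28 * P)^2 = 1568 * P^2 * 1 * 1 := by ring
        _ ≤ 2^11 * P^10 * y * (h+1)^2 := by gcongr; norm_num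
    have hterm3 : (M' c : ℝ) * h + 1 ≤ 2^29 * P^10 * y * (h+1)^2 := by
      refine hMh.trans ?_
      gcongr
    have hsum : 2 * (h:ℝ) / τ' c + 2 * (ms:ℝ)^2 + (M' c : ℝ) * h + 1
        ≤ 2^81 * P^10 * y * (h+1)^2 := by
      have h7 : (0:ℝ) ≤ P^10 * y * (h+1)^2 := by positivity
      nlinarith
    have hpos : 0 < 2 * (h:ℝ) / τ' c + 2 * (ms:ℝ)^2 + (M' c : ℝ) * h + 1 := by
      have := hτ'pos c
      positivity
    rw [le_div_iff₀ (by positivity)]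
    simp only [hΨ2]
    calc c^2 / Q * (4 * (2 * (h:ℝ) / τ' c + 2 * (ms:ℝ)^2 + (M' c : ℝ) * h + 1))
        ≤ c^2 / Q * (4 * (2^81 * P^10 * y * (h+1)^2)) := by gcongr
      _ = c * ((2^83 * ((h:ℝ)+1)^2 * P^10) / Q) := by rw [hy]; field_simp; norm_num
      _ = c := by rw [← hQval, div_self (by positivity), mul_one]
  set Ms : ℕ := 2^29 * bP h^3 * bQ h^(2^(h+1)) with hMs
  have hMsR : (Ms:ℝ) = 2^29 * P^3 * Q^(2^(h+1)) := by
    rw [hMs, hPdef, hQdef]; push_cast; ring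
  have hMs' : ∀ i ≤ h, M' (Ψ2^[i] c0) ≤ Ms := by
    intro i hi
    have h1 := hM'b _ (hdd i) (hdd1 i)
    have h2 : ((M' (Ψ2^[i] c0) : ℕ) : ℝ) ≤ (Ms:ℝ) := by
      rw [hMsR]
      calc (M' (Ψ2^[i] c0) : ℝ) ≤ 2^29 * P^3 * (1 / Ψ2^[i] c0) := h1
        _ ≤ 2^29 * P^3 * Q^(2^(h+1)) := by gcongr; exact hddQ i hi
    exact_mod_cast h2
  obtain ⟨i1, hi1, hdmin⟩ := exists_min_image (range (h+1)) (fun i => Ψ2^[i] c0)
    ⟨0, by simp⟩
  obtain ⟨N2, hN2⟩ := exists_nat_gt (4 / (Ψ2^[i1] c0))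
  have hres := fun (q : ℕ) (hq : 1 ≤ q) (hq' : q ≤ ms) => residues_loc A q hq (hloc q hq hq')
  choose! R hR1 hR2 hR3 using hres
  set S : ℕ := (range (ms+1)).sup (fun q => ∑ x ∈ R q, x) with hS
  have hS' : ∀ q ≤ ms, ∑ x ∈ R q, x ≤ S := fun q hq =>
    le_sup (f := fun q => ∑ x ∈ R q, x) (mem_range.mpr (Nat.lt_succ_of_le hq))
  have hFval : bF h = bs + Ms * h + 2 * ms := by rw [hbs, hMs, hms]; rfl
  obtain ⟨n₀, hn₀⟩ := hA
  refine ⟨Cs * (Ns + 2 * n₀ + S + N2 + Cs + 1), ?_⟩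
  intro n hn
  set N := n / Cs with hN
  have hCspos : 0 < Cs := by
    have := hCs' 0 (Nat.zero_le h)
    omega
  have hNbig : Ns + 2 * n₀ + S + N2 + Cs + 1 ≤ N := by
    rw [hN, Nat.le_div_iff_mul_le hCspos, mul_comm]; exact hn
  have hCN : Cs * N ≤ n := Nat.mul_div_le n Cs
  have hCN2 : n < Cs * N + Cs := by
    have := Nat.lt_mul_div_succ n hCspos
    rw [← hN] at this
    linarith
  have hCN3 : n ≤ (Cs + 1) * N := by nlinarith
  have hN1 : 1 ≤ N := by omega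
  have hNR : (1:ℝ) ≤ N := by exact_mod_cast hN1
  have hNpos : (0:ℝ) < N := by linarith
  -- base system
  obtain ⟨U0, hU0, hU0c⟩ := exists_system A h n₀ N hn₀
  have hU0c' : c0 * N ≤ U0.card := by
    have h1 : (N:ℝ) + 1 ≤ n₀ + ((h:ℝ)+1)^h * U0.card := by exact_mod_cast hU0c
    have h2 : 2 * (n₀:ℝ) ≤ N := by
      have : 2 * n₀ ≤ N := by omega
      exact_mod_cast this
    rw [hc0, div_mul_eq_mul_div, one_mul, div_le_iff₀ (by positivity)]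
    linarith
  obtain ⟨i, hi, U, hU, hUc, hUp⟩ := exists_unpopular A Ψ1 hΨ1pos N h c0 U0 hc0pos hU0 hU0c'
  set c1 := Ψ1^[i] c0 with hc1
  have hc1pos : 0 < c1 := hcc i
  have hc1le : c1 ≤ 1 := hcc1 i
  have hNc1 : N0 c1 ≤ Ns := hNs' i hi
  have hCc1 : C c1 + 3 ≤ Cs := hCs' i hi
  have hmc1 : m c1 ≤ ms := hms' i hi
  have hbc1 : b c1 ≤ bs := hbs' i hi
  obtain ⟨q, hq1, hqm, w, hw, hprog⟩ := hsp c1 hc1pos hc1le A N U
    (by omega) hU hUc (by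
      intro a
      refine (hUp a).trans ?_
      have : Ψ1 c1 ≤ τ c1 := hΨτ c1 hc1pos hc1le
      gcongr)
  have hqms : q ≤ ms := hqm.trans hmc1
  obtain ⟨i', hi', U', hU', hUc', hUp'⟩ := exists_unpopular A Ψ2 hΨ2pos N h c0 U0 hc0pos hU0 hU0c'
  set c2 := Ψ2^[i'] c0 with hc2
  have hc2pos : 0 < c2 := hdd i'
  have hc2le : c2 ≤ 1 := hdd1 i'
  have h4c2 : 4 < c2 * N := by
    have h1 : Ψ2^[i1] c0 ≤ c2 := hdmin i' (mem_range.mpr (Nat.lt_succ_of_le hi'))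
    rw [div_lt_iff₀ (hdd i1)] at hN2
    have h2 : (N2:ℝ) ≤ N := by
      have : N2 ≤ N := by omega
      exact_mod_cast this
    calc (4:ℝ) < N2 * Ψ2^[i1] c0 := hN2
      _ ≤ N * c2 := by
          apply mul_le_mul h2 h1 (hdd i1).le hNpos.le
      _ = c2 * N := mul_comm _ _
  have hτpos := hτ'pos c2
  obtain ⟨Bad, hBad1, hBad2⟩ := bad_set hU (τ' c2 * N) (by positivity)
  have hBadc : (Bad.card : ℝ) ≤ 2 * h / τ' c2 := by
    rw [le_div_iff₀ hτpos]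
    have h1 : (Bad.card : ℝ) * τ' c2 * N ≤ 2 * h * N := by
      have : (h:ℝ) * (N + 1) ≤ 2 * h * N := by nlinarith [(Nat.cast_nonneg h : (0:ℝ) ≤ h)]
      nlinarith
    exact le_of_mul_le_mul_right h1 hNpos
  have hRc : ((R q).card : ℝ) ≤ 2 * (ms:ℝ)^2 := by
    have h1 : (R q).card ≤ 2 * ms^2 := (hR2 q hq1 hqms).trans (by gcongr)
    exact_mod_cast h1
  set F0 := Bad ∪ R q with hF0
  have hF0c : (F0.card : ℝ) ≤ 2 * h / τ' c2 + 2 * (ms:ℝ)^2 := by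
    have h1 : (F0.card : ℝ) ≤ Bad.card + (R q).card := by
      exact_mod_cast card_union_le Bad (R q)
    linarith
  have hwC : w ≤ (Cs - 3) * N := by
    refine hw.trans ?_
    apply Nat.mul_le_mul_right
    omega
  -- greedy choice of the shift
  have hgreedy : ∀ k : ℕ, k ≤ M' c2 → ∃ E : Finset ℕ, (↑E : Set ℕ) ⊆ A ∧ Disjoint E F0 ∧
      E.card ≤ k * h ∧ (∑ x ∈ E, x) + w + 2 * N ≤ n ∧
      (n ≤ (∑ x ∈ E, x) + w + 3 * N ∨ (k:ℝ) * (c2 / 2 * N) ≤ ((∑ x ∈ E, x : ℕ) : ℝ)) := by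
    intro k
    induction k with
    | zero =>
      intro _
      refine ⟨∅, by simp, by simp, by simp, ?_, ?_⟩
      · rw [sum_empty, zero_add]
        have h1 : (Cs - 3) * N + 3 * N = Cs * N := by
          have h0 : Cs - 3 + 3 = Cs := by omega
          rw [← add_mul, h0]
        omega
      · right; simp
    | succ k ih =>
      intro hk
      obtain ⟨E, hE1, hE2, hE3, hE4, hE5⟩ := ih (by omega)
      by_cases hin : n ≤ (∑ x ∈ E, x) + w + 3 * N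
      · exact ⟨E, hE1, hE2, hE3.trans (Nat.mul_le_mul_right h (by omega)), hE4, Or.inl hin⟩
      · have hE5' := hE5.resolve_left hin
        push Not at hin
        have hFc : ((F0 ∪ E).card : ℝ) * Ψ2 c2 ≤ c2 / 4 := by
          have h1 : ((F0 ∪ E).card : ℝ) ≤ F0.card + E.card := by
            exact_mod_cast card_union_le F0 E
          have h2 : (E.card : ℝ) ≤ (M' c2 : ℝ) * h := by
            have : E.card ≤ M' c2 * h := hE3.trans (Nat.mul_le_mul_right h (by omega))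
            exact_mod_cast this
          have h3 : ((F0 ∪ E).card : ℝ) ≤
              2 * h / τ' c2 + 2 * (ms:ℝ)^2 + (M' c2 : ℝ) * h + 1 := by linarith
          have h4 := hΨ2b c2 hc2pos hc2le
          refine le_trans (mul_le_mul_of_nonneg_left h4 (Nat.cast_nonneg _)) ?_
          rw [mul_div_assoc', div_le_iff₀ (by positivity)]
          calc ((F0 ∪ E).card : ℝ) * c2
              ≤ (2 * h / τ' c2 + 2 * (ms:ℝ)^2 + (M' c2 : ℝ) * h + 1) * c2 := by gcongr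
            _ = _ := by ring
        obtain ⟨u, huU, hud, hus⟩ := pick hU' c2 (Ψ2 c2) hc2pos hUc' hUp' (F0 ∪ E) hFc h4c2
        rw [disjoint_union_right] at hud
        have hsum : ∑ x ∈ E ∪ u, x = ∑ x ∈ E, x + ∑ x ∈ u, x := sum_union hud.2.symm
        have huN := hU'.sum_le u huU
        refine ⟨E ∪ u, ?_, ?_, ?_, ?_, Or.inr ?_⟩
        · rw [coe_union]; exact Set.union_subset hE1 (hU'.sub u huU)
        · rw [disjoint_union_left]; exact ⟨hE2, hud.1⟩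
        · have h1 := card_union_le E u
          have h2 := hU'.card_le u huU
          have h3 : (k+1) * h = k * h + h := by ring
          omega
        · rw [hsum]; omega
        · rw [hsum]; push_cast; push_cast at hE5' hus; linarith
  obtain ⟨E, hE1, hE2, hE3, hE4, hE5⟩ := hgreedy (M' c2) le_rfl
  have hin : n ≤ (∑ x ∈ E, x) + w + 3 * N := by
    rcases hE5 with h1 | h1
    · exact h1
    · exfalso
      have h2 : 2 * ((Cs:ℝ) + 2) / c2 ≤ M' c2 := Nat.le_ceil _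
      rw [div_le_iff₀ hc2pos] at h2
      have h3 : ((∑ x ∈ E, x : ℕ) : ℝ) ≤ ((Cs:ℝ) + 1) * N := by
        have : ∑ x ∈ E, x ≤ (Cs + 1) * N := by omega
        exact_mod_cast this
      have h4 : ((Cs:ℝ) + 2) * N ≤ (M' c2 : ℝ) * (c2 / 2 * N) := by nlinarith
      nlinarith
  -- residue correction
  obtain ⟨B', hB'R, hB'c, hB'd⟩ := hR3 q hq1 hqms ((n:ℤ) - ((∑ x ∈ E, x : ℕ) : ℤ) - w)
  have hB's : ∑ x ∈ B', x ≤ N := by
    have h1 : ∑ x ∈ B', x ≤ ∑ x ∈ R q, x := sum_le_sum_of_subset hB'R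
    have h2 := hS' q hqms
    omega
  set z := n - ∑ x ∈ E, x - ∑ x ∈ B', x with hz
  have hzc : (z:ℤ) = (n:ℤ) - ((∑ x ∈ E, x : ℕ) : ℤ) - ((∑ x ∈ B', x : ℕ) : ℤ) := by
    rw [hz, Nat.cast_sub (by omega), Nat.cast_sub (by omega)]
  have hrobz := hprog z (by omega) (by omega) (by
    rw [hzc]
    have : (n:ℤ) - ((∑ x ∈ E, x : ℕ) : ℤ) - ((∑ x ∈ B', x : ℕ) : ℤ) - w
        = -(((∑ x ∈ B', x : ℕ) : ℤ) - ((n:ℤ) - ((∑ x ∈ E, x : ℕ) : ℤ) - w)) := by ring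
    rw [this]
    exact (dvd_neg).mpr hB'd)
  have hEpop : (pop U E : ℝ) ≤ κ c1 / 2 * N := by
    have h1 := pop_le_card_mul U E (τ' c2 * N) (by
      intro a ha
      apply hBad1
      intro hab
      exact disjoint_left.mp hE2 ha (mem_union_left _ hab))
    have h2 : (E.card : ℝ) ≤ (M' c2 : ℝ) * h := by exact_mod_cast hE3
    have h3 : (E.card : ℝ) * τ' c2 ≤ κs / 2 := by
      have h4 : τ' c2 = κs / (2 * ((M' c2 : ℝ) * h + 1)) := rfl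
      rw [h4, mul_div_assoc', div_le_iff₀ (by positivity)]
      calc (E.card : ℝ) * κs ≤ ((M' c2 : ℝ) * h + 1) * κs := by gcongr; linarith
        _ = _ := by ring
    have h5 : κs ≤ κ c1 := hκs' i hi
    calc (pop U E : ℝ) ≤ (E.card : ℝ) * (τ' c2 * N) := h1
      _ = (E.card : ℝ) * τ' c2 * N := by ring
      _ ≤ κ c1 / 2 * N := by gcongr; linarith
  have hBpop : (pop U B' : ℝ) ≤ κ c1 / 2 * N := by
    have h1 := pop_le_card_mul U B' (Ψ1 c1 * N) (fun a _ => hUp a)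
    have h2 : (B'.card : ℝ) ≤ 2 * (m c1 : ℝ) := by
      have : B'.card ≤ 2 * m c1 := hB'c.trans (by omega)
      exact_mod_cast this
    have h3 : Ψ1 c1 ≤ κ c1 / (4 * (m c1 + 1)) := hΨκ c1 hc1pos hc1le
    have h4 : 0 < κ c1 := hκ c1 hc1pos hc1le
    have h5 : (B'.card : ℝ) * Ψ1 c1 ≤ κ c1 / 2 := by
      calc (B'.card : ℝ) * Ψ1 c1 ≤ (2 * (m c1 : ℝ)) * (κ c1 / (4 * (m c1 + 1))) := by
            apply mul_le_mul h2 h3 (hΨ1pos c1 hc1pos).le (by positivity)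
        _ = κ c1 / 2 * ((m c1 : ℝ) / (m c1 + 1)) := by field_simp; ring
        _ ≤ κ c1 / 2 * 1 := by
            gcongr
            rw [div_le_one (by positivity)]; linarith
        _ = κ c1 / 2 := mul_one _
    calc (pop U B' : ℝ) ≤ (B'.card : ℝ) * (Ψ1 c1 * N) := h1
      _ = (B'.card : ℝ) * Ψ1 c1 * N := by ring
      _ ≤ κ c1 / 2 * N := by gcongr
  obtain ⟨B, hB1, hB2, hB3, hB4⟩ := hrobz (E ∪ B') (by
    have h1 : (pop U (E ∪ B') : ℝ) ≤ pop U E + pop U B' := by exact_mod_cast pop_union_le U E B'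
    linarith)
  have hEB' : Disjoint E B' := by
    apply disjoint_of_subset_right _ hE2
    exact hB'R.trans subset_union_right
  refine ⟨B ∪ (E ∪ B'), ?_, ?_, ?_⟩
  · rw [coe_union, coe_union]
    refine Set.union_subset hB1 (Set.union_subset hE1 ?_)
    exact (coe_subset.mpr hB'R).trans (hR1 q hq1 hqms)
  · have h1 := card_union_le B (E ∪ B')
    have h2 := card_union_le E B'
    have h4 : E.card ≤ Ms * h := hE3.trans (Nat.mul_le_mul_right h (hMs' i' hi'))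
    rw [hFval]
    omega
  · rw [sum_union hB2, sum_union hEB']
    have h1 : ((∑ y ∈ B, y : ℕ) : ℤ) + ((∑ x ∈ E, x : ℕ) : ℤ) + ((∑ x ∈ B', x : ℕ) : ℤ) = n := by
      rw [hB4, hzc]; ring
    have h2 : (∑ y ∈ B, y) + (∑ x ∈ E, x) + (∑ x ∈ B', x) = n := by exact_mod_cast h1
    omega

end Pool.Agent.RestrictedExplicit
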