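import Mathlib
import Pool.Agent.RestrictedExplicit.Main

set_option autoImplicit false

/-!
# The closed form `2^(2^(6h+12))` of the bound
-/

namespace Pool.Agent.RestrictedExplicit

lemma bB_le (h : ℕ) : bB h ≤ 2 ^ (75 + h * (h + 1)) := by
  unfold bB
  rw [pow_add 2 75]
  apply Nat.mul_le_mul_left
  rw [pow_mul]
  exact Nat.pow_le_pow_left Nat.lt_two_pow_self (h + 1)

lemma quad_le (h : ℕ) : 75 + h * (h + 1) ≤ 75 * 2 ^ h := by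
  induction h with
  | zero => norm_num
  | succ h ih =>
    have h1 : h + 1 ≤ 2 ^ h := Nat.lt_two_pow_self
    rw [pow_succ]
    nlinarith

lemma bP_le (h : ℕ) : bP h ≤ 2 ^ (150 * 32 ^ h) := by
  unfold bP
  calc bB h ^ (2 * 10^h) ≤ (2 ^ (75 * 2^h)) ^ (2 * 10^h) := by
        apply Nat.pow_le_pow_left
        exact (bB_le h).trans (Nat.pow_le_pow_right (by norm_num) (quad_le h))
    _ = 2 ^ ((75 * 2^h) * (2 * 10^h)) := by rw [← pow_mul]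
    _ ≤ 2 ^ (150 * 32 ^ h) := by
        apply Nat.pow_le_pow_right (by norm_num)
        have h1 : (2:ℕ)^h * 10^h ≤ 32^h := by
          rw [← mul_pow]
          exact Nat.pow_le_pow_left (by norm_num) h
        nlinarith

lemma bQ_le (h : ℕ) : bQ h ≤ 2 ^ (83 + 2 * h + 1500 * 32 ^ h) := by
  unfold bQ
  have h1 : (h+1)^2 ≤ 2 ^ (2 * h) := by
    rw [mul_comm, pow_mul]
    exact Nat.pow_le_pow_left Nat.lt_two_pow_self 2
  have h2 : bP h ^ 10 ≤ 2 ^ (1500 * 32 ^ h) := by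
    calc bP h ^ 10 ≤ (2 ^ (150 * 32 ^ h)) ^ 10 := Nat.pow_le_pow_left (bP_le h) 10
      _ = 2 ^ (1500 * 32 ^ h) := by rw [← pow_mul]; congr 1; ring
  calc 2^83 * (h+1)^2 * bP h ^ 10 ≤ 2^83 * 2 ^ (2 * h) * 2 ^ (1500 * 32 ^ h) := by gcongr
    _ = _ := by rw [← pow_add, ← pow_add]

lemma exponent_le (h : ℕ) : 31 + h + 3 * (150 * 32 ^ h)
    + (83 + 2 * h + 1500 * 32 ^ h) * 2 ^ (h+1) ≤ 2 ^ (6 * h + 12) := by
  have e64 : (2:ℕ) ^ (6 * h + 12) = 4096 * 64 ^ h := by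
    rw [pow_add, pow_mul]; norm_num; ring
  have h32 : (32:ℕ) ^ h ≤ 64 ^ h := Nat.pow_le_pow_left (by norm_num) h
  have h64 : (32:ℕ) ^ h * 2 ^ h = 64 ^ h := by rw [← mul_pow]; norm_num
  have hh : h + 1 ≤ 2 ^ h := Nat.lt_two_pow_self
  have h4 : (2:ℕ) ^ h * 2 ^ h ≤ 64 ^ h := by
    rw [← mul_pow]; exact Nat.pow_le_pow_left (by norm_num) h
  have h2 : (2:ℕ) ^ h ≤ 64 ^ h := Nat.pow_le_pow_left (by norm_num) h
  have h1 : 31 + h ≤ 31 * 64 ^ h := by nlinarith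
  have h5 : (83 + 2 * h) * 2 ^ (h+1) ≤ 166 * 64 ^ h := by
    have h6 : 83 + 2 * h ≤ 83 * 2 ^ h := by nlinarith
    calc (83 + 2 * h) * 2 ^ (h+1) ≤ (83 * 2 ^ h) * 2 ^ (h+1) := by gcongr
      _ = 166 * (2 ^ h * 2 ^ h) := by ring
      _ ≤ 166 * 64 ^ h := by gcongr
  have h7 : 1500 * 32 ^ h * 2 ^ (h+1) = 3000 * 64 ^ h := by
    rw [← h64]; ring
  rw [e64, add_mul, h7]
  linarith

/-- The closed form. -/
theorem bF_le (h : ℕ) : bF h ≤ 2 ^ (2 ^ (6 * h + 12)) := by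
  have hP := bP_le h
  have hP1 := bP_one_le h
  have hQ1 := bQ_one_le h
  have hh : h + 1 ≤ 2 ^ h := Nat.lt_two_pow_self
  set X : ℕ := bP h ^ 3 * bQ h ^ (2 ^ (h+1)) with hX
  have hPX3 : bP h ^ 3 ≤ X := Nat.le_mul_of_pos_right _ (Nat.pow_pos hQ1)
  have hPX : bP h ≤ X := (Nat.le_self_pow (by norm_num) _).trans hPX3
  have h1 : bF h ≤ 2 ^ 31 * 2 ^ h * X := by
    unfold bF
    have e1 : 2^26 * h * bP h^3 ≤ 2^26 * 2^h * X := by
      have : h ≤ 2 ^ h := by omega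
      gcongr
    have e2 : (2^29 * bP h^3 * bQ h^(2^(h+1))) * h ≤ 2^29 * 2^h * X := by
      have : h ≤ 2 ^ h := by omega
      calc (2^29 * bP h^3 * bQ h^(2^(h+1))) * h = 2^29 * h * X := by rw [hX]; ring
        _ ≤ _ := by gcongr
    have e3 : 2 * (28 * bP h) ≤ 2^6 * 2^h * X := by
      have : 1 ≤ 2 ^ h := by omega
      calc 2 * (28 * bP h) = 56 * 1 * bP h := by ring
        _ ≤ 2^6 * 2^h * X := by gcongr; norm_num
    calc _ ≤ 2^26 * 2^h * X + 2^29 * 2^h * X + 2^6 * 2^h * X := by omega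
      _ = (2^26 + 2^29 + 2^6) * (2^h * X) := by ring
      _ ≤ 2^31 * (2^h * X) := by gcongr; norm_num
      _ = _ := by ring
  have h2 : X ≤ 2 ^ (3 * (150 * 32 ^ h)) * 2 ^ ((83 + 2 * h + 1500 * 32 ^ h) * 2 ^ (h+1)) := by
    rw [hX]
    have e1 : bP h ^ 3 ≤ 2 ^ (3 * (150 * 32 ^ h)) := by
      calc bP h ^ 3 ≤ (2 ^ (150 * 32 ^ h)) ^ 3 := Nat.pow_le_pow_left hP 3
        _ = _ := by rw [← pow_mul]; congr 1; ring
    have e2 : bQ h ^ (2 ^ (h+1)) ≤ 2 ^ ((83 + 2 * h + 1500 * 32 ^ h) * 2 ^ (h+1)) := by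
      rw [pow_mul 2 (83 + 2 * h + 1500 * 32 ^ h)]
      exact Nat.pow_le_pow_left (bQ_le h) _
    exact Nat.mul_le_mul e1 e2
  calc bF h ≤ 2 ^ 31 * 2 ^ h * X := h1
    _ ≤ 2 ^ 31 * 2 ^ h * (2 ^ (3 * (150 * 32 ^ h)) *
          2 ^ ((83 + 2 * h + 1500 * 32 ^ h) * 2 ^ (h+1))) := Nat.mul_le_mul_left _ h2
    _ = 2 ^ (31 + h + 3 * (150 * 32 ^ h) + (83 + 2 * h + 1500 * 32 ^ h) * 2 ^ (h+1)) := by
        rw [← pow_add, ← pow_add, ← pow_add]; congr 1; ring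
    _ ≤ _ := Nat.pow_le_pow_right (by norm_num) (exponent_le h)

lemma mod_le_bound (h : ℕ) : 28 * bP h ≤ 2 ^ (2 ^ (6 * h + 12)) := by
  refine le_trans ?_ (bF_le h)
  unfold bF
  omega

end Pool.Agent.RestrictedExplicit
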