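import Mathlib

set_option autoImplicit false

/-!
# The local condition only concerns moduli dividing almost all elements
-/

namespace Pool.Agent.RestrictedExplicit

open Finset

/-- The integers `t` such that, avoiding any finite set, some finite set of elements of `A` has
sum congruent to `t` modulo `q`. -/
def Free (A : Set ℕ) (q : ℕ) (t : ℤ) : Prop :=
  ∀ E : Finset ℕ, ∃ s : Finset ℕ, (↑s : Set ℕ) ⊆ A ∧ Disjoint s E ∧
    (q:ℤ) ∣ ((∑ x ∈ s, x : ℕ) : ℤ) - t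

lemma Free.zero (A : Set ℕ) (q : ℕ) : Free A q 0 := by
  intro E
  exact ⟨∅, by simp, by simp, by simp⟩

lemma Free.add {A : Set ℕ} {q : ℕ} {t u : ℤ} (ht : Free A q t) (hu : Free A q u) :
    Free A q (t + u) := by
  classical
  intro E
  obtain ⟨s, hs1, hs2, hs3⟩ := ht E
  obtain ⟨v, hv1, hv2, hv3⟩ := hu (E ∪ s)
  rw [disjoint_union_right] at hv2
  refine ⟨s ∪ v, ?_, ?_, ?_⟩
  · rw [coe_union]; exact Set.union_subset hs1 hv1
  · rw [disjoint_union_left]; exact ⟨hs2, hv2.1⟩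
  · rw [sum_union hv2.2.symm]
    have e : ((∑ x ∈ s, x + ∑ x ∈ v, x : ℕ) : ℤ) - (t + u)
        = (((∑ x ∈ s, x : ℕ) : ℤ) - t) + (((∑ x ∈ v, x : ℕ) : ℤ) - u) := by push_cast; ring
    rw [e]
    exact dvd_add hs3 hv3

lemma Free.congr {A : Set ℕ} {q : ℕ} {t u : ℤ} (ht : Free A q t) (h : (q:ℤ) ∣ t - u) :
    Free A q u := by
  intro E
  obtain ⟨s, hs1, hs2, hs3⟩ := ht E
  refine ⟨s, hs1, hs2, ?_⟩
  have e : ((∑ x ∈ s, x : ℕ) : ℤ) - u = (((∑ x ∈ s, x : ℕ) : ℤ) - t) + (t - u) := by ring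
  rw [e]
  exact dvd_add hs3 h

lemma Free.nsmul {A : Set ℕ} {q : ℕ} {t : ℤ} (ht : Free A q t) (n : ℕ) :
    Free A q (n * t) := by
  induction n with
  | zero => simpa using Free.zero A q
  | succ n ih =>
    have := ih.add ht
    have e : (n:ℤ) * t + t = ((n + 1 : ℕ) : ℤ) * t := by push_cast; ring
    rwa [e] at this

lemma Free.neg {A : Set ℕ} {q : ℕ} {t : ℤ} (hq : 1 ≤ q) (ht : Free A q t) : Free A q (-t) := by
  refine (ht.nsmul (q - 1)).congr ?_
  rw [Nat.cast_sub hq]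
  exact ⟨t, by push_cast; ring⟩

/-- The subgroup of the free classes. -/
def freeGroup (A : Set ℕ) (q : ℕ) (hq : 1 ≤ q) : AddSubgroup ℤ where
  carrier := {t | Free A q t}
  add_mem' := fun h1 h2 => Free.add h1 h2
  zero_mem' := Free.zero A q
  neg_mem' := fun h => Free.neg hq h

/-- If the sums of distinct elements of `A` meet all classes modulo every `g ≥ 2` that divides `q`
and all but finitely many elements of `A`, then they meet all classes modulo `q`. -/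
theorem meets_of_local (A : Set ℕ) (q : ℕ) (hq : 1 ≤ q)
    (H : ∀ g, 2 ≤ g → g ∣ q → {a ∈ A | ¬ g ∣ a}.Finite → ∀ r : ℕ, ∃ s : Finset ℕ,
      (↑s : Set ℕ) ⊆ A ∧ (∑ x ∈ s, x) % g = r % g) (r : ℕ) :
    ∃ s : Finset ℕ, (↑s : Set ℕ) ⊆ A ∧ (∑ x ∈ s, x) % q = r % q := by
  classical
  obtain ⟨g₀, hg₀⟩ := Int.subgroup_cyclic (freeGroup A q hq)
  set g : ℕ := g₀.natAbs with hg
  have hmem : ∀ t : ℤ, Free A q t ↔ (g:ℤ) ∣ t := by
    intro t
    have h1 : t ∈ freeGroup A q hq ↔ t ∈ AddSubgroup.closure {g₀} := by rw [hg₀]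
    rw [AddSubgroup.mem_closure_singleton] at h1
    change Free A q t ↔ _ at h1
    rw [h1, hg, Int.natAbs_dvd]
    constructor
    · rintro ⟨z, hz⟩
      exact ⟨z, by rw [← hz, smul_eq_mul, mul_comm]⟩
    · rintro ⟨z, hz⟩
      exact ⟨z, by rw [hz, smul_eq_mul, mul_comm]⟩
  have hgq : g ∣ q := by
    have h1 : Free A q (q:ℤ) := (Free.zero A q).congr (by simp)
    have h2 := (hmem q).mp h1
    exact_mod_cast h2
  have hg1 : 1 ≤ g := Nat.pos_of_dvd_of_pos hgq (by omega)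
  -- almost all elements are divisible by `g`
  have hfin : {a ∈ A | ¬ g ∣ a}.Finite := by
    have hsub : {a ∈ A | ¬ g ∣ a} ⊆
        ⋃ i ∈ (range q).filter (fun i => ¬ g ∣ i), {a ∈ A | a % q = i} := by
      intro a ha
      simp only [Set.mem_iUnion]
      refine ⟨a % q, ?_, ha.1, rfl⟩
      rw [mem_filter, mem_range]
      refine ⟨Nat.mod_lt _ (by omega), fun hd => ha.2 ?_⟩
      rw [← Nat.div_add_mod a q]
      exact dvd_add (hgq.mul_right _) hd
    refine Set.Finite.subset ?_ hsub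
    apply Set.Finite.biUnion (Finset.finite_toSet _)
    intro i hi
    by_contra hinf
    have hi' := (mem_filter.mp (mem_coe.mp hi)).2
    apply hi'
    have hfree : Free A q (i:ℤ) := by
      intro E
      have h2 : ({a ∈ A | a % q = i} \ (↑E : Set ℕ)).Infinite :=
        Set.Infinite.diff hinf E.finite_toSet
      obtain ⟨a, ha⟩ := h2.nonempty
      refine ⟨{a}, ?_, ?_, ?_⟩
      · rw [coe_singleton, Set.singleton_subset_iff]; exact ha.1.1
      · rw [disjoint_singleton_left]; exact fun h => ha.2 (mem_coe.mpr h)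
      · rw [sum_singleton, ← ha.1.2]
        push_cast
        exact Int.dvd_self_sub_emod
    have h3 := (hmem i).mp hfree
    exact_mod_cast h3
  obtain ⟨s, hs, hsr⟩ : ∃ s : Finset ℕ, (↑s : Set ℕ) ⊆ A ∧ (∑ x ∈ s, x) % g = r % g := by
    rcases Nat.lt_or_ge g 2 with h | h
    · have : g = 1 := by omega
      rw [this]
      exact ⟨∅, by simp, by simp [Nat.mod_one]⟩
    · exact H g h hgq hfin r
  have hd : (g:ℤ) ∣ (r:ℤ) - ((∑ x ∈ s, x : ℕ) : ℤ) :=
    Nat.modEq_iff_dvd.mp (show ∑ x ∈ s, x ≡ r [MOD g] from hsr)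
  obtain ⟨v, hv1, hv2, hv3⟩ := (hmem _).mpr hd s
  refine ⟨s ∪ v, ?_, ?_⟩
  · rw [coe_union]; exact Set.union_subset hs hv1
  · rw [sum_union hv2.symm]
    have e : (q:ℤ) ∣ (((∑ x ∈ s, x) + ∑ x ∈ v, x : ℕ) : ℤ) - (r:ℤ) := by
      have e1 : (((∑ x ∈ s, x) + ∑ x ∈ v, x : ℕ) : ℤ) - (r:ℤ)
          = ((∑ x ∈ v, x : ℕ) : ℤ) - ((r:ℤ) - ((∑ x ∈ s, x : ℕ) : ℤ)) := by push_cast; ring
      rw [e1]; exact hv3
    exact (Nat.modEq_iff_dvd.mpr e).symm

end Pool.Agent.RestrictedExplicit
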